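import Pool.Agent.H17.BV.TE
import Pool.Agent.H29.BV.BL
import Pool.Agent.H29.BV.XP
import Pool.Agent.H34.BV.PW
import Pool.Agent.H56.BV.YV
import Pool.Agent.H67.BV.ES
import Pool.Agent.H23.NOK.AS
import Pool.Agent.H23.NOK.MG
import Pool.Agent.H23.NOK.SR
import Pool.Agent.H23.NOK.TH
import Pool.Agent.H37.NOK.C12
import Pool.Agent.H37.NOK.DD
import Pool.Agent.H37.NOK.EP
import Pool.Agent.H6.NOK.CH
import Pool.Agent.H6.NOK.DZ
import Pool.Agent.H6.NOK.LA
import Pool.Agent.H6.NOK.MER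
import Pool.Agent.H6.NOK.MU
import Pool.Agent.H6.NOK.PD
import Pool.Agent.H6.NOK.PS
import Pool.Agent.H6.NOK.RS
import Pool.Agent.H6.NOK.TF
import Pool.Agent.H6.NOK.TL
import Pool.Agent.H74.NOK.CJ
import Pool.Agent.H41.NOK.CO
import Pool.Agent.H79.NO.DN
import Pool.Agent.H99.NOK.FA
import Pool.Agent.H99.NOK.NI
import Pool.Agent.H99.NOK.SM
import Pool.Agent.H99.NOK.SV
import Pool.Agent.H84.NO.UB
import Pool.Agent.H84.NO.UP
import Pool.Agent.H84.NO.VA
import Pool.Agent.H26.NOK.LB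
import Pool.Agent.H26.NOK.VB
import Pool.Agent.H26.NOK.WB
import Pool.Agent.H13.NOK.FI

/-!
# MP_0cd084_nt: sum = product sequences, the order of `log (N k)` for almost all `k`

`N k` is the number of multisets of `k` positive integers whose product equals their sum. For
almost all `k` the logarithm of `N k` has the order of magnitude
`g k = √(log k) * log log log k / log log k`. The upper bound holds for all `k ≤ x` with at most
`x * exp (-c * g x)` exceptions, the lower bound in every interval of length `x` with at most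
`x * exp (-c * g x)` exceptions.
-/

set_option autoImplicit false

namespace Pool.Agent.Results.MP_0cd084_nt.NormalOrder

open Real

/-- The multisets of `k` positive integers whose product equals their sum. -/
def SumProduct (k : ℕ) : Set (Multiset ℕ) :=
  {s : Multiset ℕ | Multiset.card s = k ∧ (∀ a ∈ s, 0 < a) ∧ s.prod = s.sum}

/-- The number of sum = product sequences of size `k`. -/
noncomputable def N (k : ℕ) : ℕ := (SumProduct k).ncard

/-- The order of magnitude of `log (N k)`. -/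
noncomputable def g (x : ℝ) : ℝ := √(log x) * log (log (log x)) / log (log x)

theorem result : ∃ c C x₀ : ℝ, 0 < c ∧ ∀ x : ℝ, x₀ ≤ x →
    ({k : ℕ | 2 ≤ k ∧ (k : ℝ) ≤ x ∧ exp (C * g x) < N k}.ncard : ℝ) ≤ x * exp (-(c * g x)) ∧
    ∀ y : ℝ, 0 ≤ y → ({k : ℕ | y < k ∧ (k : ℝ) ≤ y + x ∧ (N k : ℝ) < exp (c * g x)}.ncard : ℝ) ≤
      x * exp (-(c * g x)) := by
  have hAS := Pool.Agent.H23.NOK.pf_AS
  have hMER := Pool.Agent.H6.NOK.pf_MER
  have hSR := Pool.Agent.H23.NOK.pf_SR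
  have hMG := Pool.Agent.H23.NOK.pf_MG
  have hEP := Pool.Agent.H37.NOK.pf_EP
  have hTL := Pool.Agent.H6.NOK.pf_TL
  have hWB := Pool.Agent.H26.NOK.pf_WB hAS hMG hTL
  have hVA := Pool.Agent.H84.NO.pf_VA hAS hMER hEP
  have hVB := Pool.Agent.H26.NOK.pf_VB hAS hMG hVA
  have hUB := Pool.Agent.H84.NO.pf_UB hAS hMER hEP
  have hC1 := Pool.Agent.H37.NOK.pf_C1 hSR
  have hC2 := Pool.Agent.H37.NOK.pf_C2 hSR
  have hUP := Pool.Agent.H84.NO.pf_UP hAS hSR hWB hVB hUB hC1 hC2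
  have hTF := Pool.Agent.H6.NOK.pf_TF
  have hPS := Pool.Agent.H6.NOK.pf_PS
  have hPD := Pool.Agent.H6.NOK.pf_PD
  have hCO := Pool.Agent.H41.NOK.pf_CO (Pool.Agent.H74.NOK.pf_CJ hTF hPS hPD)
  have hTH := Pool.Agent.H23.NOK.pf_TH
  have hLA := Pool.Agent.H6.NOK.pf_LA hMER
  have hFA := Pool.Agent.H99.NOK.pf_FA hAS hPS hPD hCO hTH hLA
  have hCH := Pool.Agent.H6.NOK.pf_CH Pool.Agent.H99.NOK.pf_SM
  have hDN := Pool.Agent.H79.NO.pf_DN Pool.Agent.H6.NOK.pf_RS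
  have hDD := Pool.Agent.H37.NOK.pf_DD hDN Pool.Agent.H6.NOK.pf_DZ
  have hBL : Pool.Agent.H30.BV.T_BL := Pool.Agent.H29.BV.bl Pool.Agent.H34.BV.pw
    Pool.Agent.H17.BV.TE.pf_TE Pool.Agent.H29.BV.xp
    (Pool.Agent.H56.BV.yv Pool.Agent.H34.BV.pw) Pool.Agent.H67.BV.pf_ES
  have hSV := Pool.Agent.H99.NOK.pf_SV hBL hMER hAS
  have hMU := Pool.Agent.H6.NOK.pf_MU hSV
  have hLB := Pool.Agent.H26.NOK.pf_LB hAS hFA hCH hDD Pool.Agent.H99.NOK.pf_NI hMU
  obtain ⟨c, C, x₀, hc, h⟩ := Pool.Agent.H13.NOK.pf_FI hAS hUP hLB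
  refine ⟨c, C, x₀, hc, fun x hx => ?_⟩
  obtain ⟨h1, h2⟩ := h x hx
  refine ⟨le_trans ?_ h1, h2⟩
  norm_cast
  refine Set.ncard_le_ncard ?_ ?_
  · rintro k ⟨a1, a2, a3⟩
    exact ⟨a1, a2, fun a4 => absurd a4.2 (not_le.2 a3)⟩
  · refine (Set.finite_Iic ⌊x⌋₊).subset ?_
    rintro k ⟨_, hk, _⟩
    exact Nat.le_floor hk

end Pool.Agent.Results.MP_0cd084_nt.NormalOrder
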