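import Pool.Agent.H84.BV.LS
import Pool.Agent.H60.BV.GS
import Pool.Agent.H89.BV.MV
import Pool.Agent.H4.BV.T1
import Pool.Agent.H4.BV.T2
import Pool.Agent.H71.BV.CB
import Pool.Agent.H58.BV.DY
import Pool.Agent.H17.BV.S1
import Pool.Agent.H58.BV.PM
import Pool.Agent.H56.BV.CL
import Pool.Agent.H67.BV.WM
import Pool.Agent.H14.NK.SM
import Pool.Agent.H13.NK.UP
import Pool.Agent.H14.NK.WI
import Pool.Agent.H58.NK.SZ
import Pool.Agent.H58.NK.DR
import Pool.Agent.H73.NK.FM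
import Pool.Agent.H58.NK.TO
import Pool.Agent.H12.NK.ER
import Pool.Agent.H19.NK.WS
import Pool.Agent.H19.NK.PP
import Pool.Agent.H73.NK.PR
import Pool.Agent.H19.NK.BD
import Pool.Agent.H48.NK.BQ
import Pool.Agent.H69.NK.IJ
import Pool.Agent.H51.NK.SO
import Pool.Agent.H50.NK.CN
import Pool.Agent.H19.NK.LV
import Pool.Agent.H33.NK.PA
import Pool.Agent.H73.NK.F1
import Pool.Agent.H33.NK.F2
import Pool.Agent.H33.NK.F3
import Pool.Agent.H33.NK.FI
import Pool.Agent.H73.NK.Fin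

/-!
# MP_0cd084_nt: sum = product sequences, a very thin exceptional set

`N k` is the number of multisets of `k` positive integers whose product equals their sum. For all
large `x` and all `log log x ≤ l ≤ (log x) ^ (1/4)`, at most `x ^ (1 - 1 / (C l ^ 2 log l))` of the
`k ≤ x` have `N k < exp l`. In particular `N k` tends to infinity when `k` avoids a set with at
most `x ^ (1 - 1 / (C (log log x) ^ 2 log log log x))` elements up to `x`.
-/

set_option autoImplicit false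

namespace Pool.Agent.Results.MP_0cd084_nt.ThinExceptionalSet

open Real

/-- The multisets of `k` positive integers whose product equals their sum. -/
def SumProduct (k : ℕ) : Set (Multiset ℕ) :=
  {s : Multiset ℕ | Multiset.card s = k ∧ (∀ a ∈ s, 0 < a) ∧ s.prod = s.sum}

/-- The number of sum = product sequences of size `k`. -/
noncomputable def N (k : ℕ) : ℕ := (SumProduct k).ncard

theorem result : ∃ C x₀ : ℝ, 0 < C ∧ ∀ x l : ℝ, x₀ ≤ x → log (log x) ≤ l →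
    l ≤ log x ^ (1 / 4 : ℝ) →
      ({k : ℕ | 2 ≤ k ∧ (k : ℝ) ≤ x ∧ (N k : ℝ) < exp l}.ncard : ℝ) ≤
        x ^ (1 - 1 / (C * l ^ 2 * log l)) := by
  have hCB := Pool.Agent.H71.BV.cb
  have hLS := Pool.Agent.H84.BV.ls Pool.Agent.H60.BV.gs
  have hMV := Pool.Agent.H89.BV.pf_MV hLS Pool.Agent.H4.BV.t2 Pool.Agent.H4.BV.t1 hCB
  have hDY := Pool.Agent.H58.BV.dy hMV
  have hS1 := Pool.Agent.H17.BV.S1.pf_S1 Pool.Agent.H58.BV.pm
  have hCL := Pool.Agent.H56.BV.cl Pool.Agent.H58.BV.pm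
  have hWM := Pool.Agent.H67.BV.pf_WM
  have hSZ := Pool.Agent.H58.NK.pf_sz
  have hWI := Pool.Agent.H14.NK.wi Pool.Agent.H14.NK.sm Pool.Agent.H13.NK.pf_UP
  have hER := Pool.Agent.H12.NK.pf_ER hS1 hDY hSZ Pool.Agent.H58.NK.pf_dr Pool.Agent.H73.NK.pf_fm
    Pool.Agent.H58.NK.pf_to
  have hWS := Pool.Agent.H19.NK.WS.ws hCL hWM
  have hPR := Pool.Agent.H73.NK.pf_pr Pool.Agent.H19.NK.PP.pp
  have hF1 := Pool.Agent.H73.NK.f1 hWI hSZ hER hWS hPR Pool.Agent.H19.NK.BD.bd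
    Pool.Agent.H48.BQ.bq
  have hF2 := Pool.Agent.H33.NK.pf_F2 hF1 (Pool.Agent.H69.NK.pf_ij hSZ) Pool.Agent.H51.NK.SO.so
  have hF3 := Pool.Agent.H33.NK.pf_F3 Pool.Agent.H19.NK.LV.lv Pool.Agent.H33.NK.pf_PA
    Pool.Agent.H50.NK.pf_cn
  obtain ⟨C, x₀, hC, h⟩ := Pool.Agent.H73.NK.e1 (Pool.Agent.H33.NK.pf_FI hF2 hF3)
  refine ⟨C, x₀, hC, fun x l hx h1 h2 => le_trans ?_ (h x l hx h1 h2)⟩
  norm_cast
  refine Set.ncard_le_ncard ?_ ?_
  · rintro k ⟨a1, a2, a3⟩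
    exact ⟨by omega, a2, a3⟩
  · refine (Set.finite_Iic ⌊x⌋₊).subset ?_
    rintro k ⟨_, hk, _⟩
    exact Nat.le_floor hk

end Pool.Agent.Results.MP_0cd084_nt.ThinExceptionalSet
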